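import Pool.Agent.Lib.helper21.Tasks

set_option autoImplicit false

namespace Pool.Agent.Results.MP_2087e7_lc.CH

open Set MeasureTheory Metric Topology TopologicalSpace
open Cardinal hiding univ

def Fσ (F : Set ℝ) : Prop := ∃ C : ℕ → Set ℝ, (∀ n, IsClosed (C n)) ∧ F = ⋃ n, C n

def UN (A : Set ℝ) : Prop := ∀ μ : Measure ℝ, IsFiniteMeasure μ → (∀ x, μ {x} = 0) → μ A = 0

def PN (A : Set ℝ) : Prop :=
  ∀ μ : Measure ℝ, IsFiniteMeasure μ → (∀ x, μ {x} = 0) → ∃ F, Fσ F ∧ A ⊆ F ∧ μ F = 0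

def PM (A : Set ℝ) : Prop := ∀ P : ℕ → Set ℝ, (∀ n, Perfect (P n)) →
  ∃ F, Fσ F ∧ A ⊆ F ∧ ∀ n, IsMeagre ((↑) ⁻¹' F : Set (P n))

def Good (G : Set ℝ) : Prop :=
  G.Nonempty ∧ IsGδ G ∧ ∀ U, IsOpen U → (U ∩ G).Nonempty → volume (closure (U ∩ G)) ≠ 0

theorem Good.inter {G U : Set ℝ} (h : Good G) (hU : IsOpen U) (n : (U ∩ G).Nonempty) :
    Good (U ∩ G) :=
  ⟨n, hU.isGδ.inter h.2.1, fun V hV => by rw [← inter_assoc]; exact h.2.2 _ (hV.inter hU)⟩

theorem dns (G : Set ℝ) : ∃ E ⊆ G, E.Countable ∧ G ⊆ closure E :=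
  (IsSeparable.of_separableSpace G).exists_countable_dense_subset

section
variable {𝒟 : Set (Set ℝ)} (h1 : ∀ G ∈ 𝒟, Good G) {Q : ℕ → Set ℝ}
  (h2 : ∀ G ∈ 𝒟, ∀ U, IsOpen U → (U ∩ G).Nonempty → ∀ n, ∃ H ∈ 𝒟, H ⊆ U ∩ G ∩ Q n) (d : ℕ → ℝ)
include h1 h2

theorem child (V : {V : ℕ → Set ℝ // (∀ j, IsOpen (V j)) ∧ ⋂ j, V j ∈ 𝒟}) (n : ℕ) :
    ∃ (L : Set ℝ) (W : ℕ → {V : ℕ → Set ℝ // (∀ j, IsOpen (V j)) ∧ ⋂ j, V j ∈ 𝒟}),
    IsClosed L ∧ volume L ≠ 0 ∧ (∀ k, d k ∉ L) ∧ (∀ i, closure ((W i).1 0) ⊆ V.1 0 ∧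
      (∀ j, (W i).1 j ⊆ V.1 (j + 1)) ∧ ⋂ j, (W i).1 j ⊆ Q n ∧ d n ∉ closure ((W i).1 0) ∧
      (∃ z, (W i).1 0 ⊆ ball z (1 / (n + 1))) ∧ (W (i + 1)).1 0 ⊆ thickening (1 / (i + 1)) L) ∧
    (∀ i j, i < j → Disjoint ((W i).1 0) ((W j).1 0)) ∧
    ∀ x ∈ L, ∀ δ > 0, ∃ i, (W i).1 0 ⊆ ball x δ := by
  obtain ⟨V, v1, v2⟩ := V
  obtain ⟨E, e1, e2, e3⟩ := dns (⋂ j, V j)
  have c := (countable_range d).union e2
  obtain ⟨L, l1, l2, l3⟩ := (isClosed_closure.measurableSet.diff c.measurableSet).exists_lt_isCompact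
    (μ := volume) (r := 0) (by
      rw [measure_diff_null (c.measure_zero _), pos_iff_ne_zero]
      simpa using (h1 _ v2).2.2 univ isOpen_univ (by simpa using (h1 _ v2).1))
  have : Nonempty L := (nonempty_of_measure_ne_zero l3.ne').to_subtype
  let z : ℕ → L := fun i => denseSeq L i.unpair.1
  have k : ∀ (i : ℕ) (δ : {δ : ℝ // 0 < δ}), ∃ (δ' : {δ : ℝ // 0 < δ})
      (W : {V : ℕ → Set ℝ // (∀ j, IsOpen (V j)) ∧ ⋂ j, V j ∈ 𝒟}), δ'.1 ≤ δ ∧ δ'.1 ≤ 1 / (i + 1) ∧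
      closure (W.1 0) ⊆ V 0 ∩ ball (z i) δ ∩ {d n}ᶜ ∩ {x | δ' < infDist x L} ∧
      (∀ j, W.1 j ⊆ V (j + 1)) ∧ ⋂ j, W.1 j ⊆ Q n := fun i δ => by
    obtain ⟨y, ⟨y1, y2⟩, y3⟩ := mem_closure_iff.1 (closure_minimal e3 isClosed_closure (l1 (z i).2).1)
      (ball (z i) δ ∩ {d n}ᶜ) (isOpen_ball.inter isOpen_compl_singleton)
      ⟨mem_ball_self δ.2, fun q => (l1 (z i).2).2 (.inl ⟨_, q.symm⟩)⟩
    have y4 := (l2.isClosed.notMem_iff_infDist_pos ⟨_, (z i).2⟩).1 fun q => (l1 q).2 (.inr y3)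
    let δ' : ℝ := min (min δ (1 / (i + 1))) (infDist y L / 2)
    obtain ⟨r, r1, r2⟩ := nhds_basis_closedBall.mem_iff.1 (((((v1 0).inter isOpen_ball).inter
      isOpen_compl_singleton).inter (isOpen_lt continuous_const (continuous_infDist_pt L))).mem_nhds
      (show y ∈ V 0 ∩ ball (z i) δ ∩ {d n}ᶜ ∩ {x | δ' < infDist x L} from
        ⟨⟨⟨mem_iInter.1 (e1 y3) 0, y1⟩, y2⟩, (min_le_right _ _).trans_lt (half_lt_self y4)⟩))
    obtain ⟨H, g1, g2⟩ := h2 _ v2 _ isOpen_ball ⟨y, mem_ball_self r1, e1 y3⟩ n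
    obtain ⟨U, u1, rfl⟩ := (h1 H g1).2.1.eq_iInter_nat
    have e : ⋂ j, U j ∩ V (j + 1) ∩ ball y r = ⋂ j, U j :=
      (iInter_mono fun j => inter_subset_left.trans inter_subset_left).antisymm
        (subset_iInter fun j x hx => ⟨⟨mem_iInter.1 hx j, mem_iInter.1 (g2 hx).1.2 _⟩, (g2 hx).1.1⟩)
    exact ⟨⟨δ', lt_min (lt_min δ.2 (by positivity)) (half_pos y4)⟩, ⟨_, fun j =>
      ((u1 j).inter (v1 _)).inter isOpen_ball, e ▸ g1⟩, (min_le_left _ _).trans (min_le_left _ _),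
      (min_le_left _ _).trans (min_le_right _ _), ((closure_mono inter_subset_right).trans
        closure_ball_subset_closedBall).trans r2, fun j => inter_subset_left.trans inter_subset_right,
      e.le.trans (g2.trans inter_subset_right)⟩
  choose nx W k1 k2 k3 k4 k5 using k
  let s : ℕ → {δ : ℝ // 0 < δ} := fun i => i.rec ⟨1 / (n + 1), by positivity⟩ nx
  have s1 : Antitone fun i => (s i).1 := antitone_nat_of_succ_le fun i => k1 i _
  have s2 : ∀ i, (W i (s i)).1 0 ⊆ ball (z i).1 (s i).1 := fun i x hx => (k3 _ _ (subset_closure hx)).1.1.2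
  refine ⟨L, fun i => W i (s i), l2.isClosed, l3.ne', fun k q => (l1 q).2 (.inl ⟨_, rfl⟩), fun i =>
    ⟨fun x hx => (k3 _ _ hx).1.1.1, k4 _ _, k5 _ _, fun q => (k3 _ _ q).1.2 rfl,
      ⟨_, (s2 i).trans (ball_subset_ball (s1 i.zero_le))⟩, (s2 _).trans ((ball_subset_ball
        (k2 i _)).trans (ball_subset_thickening (z _).2 _))⟩, fun i j ij => disjoint_left.2
    fun x x1 x2 => ((k3 _ _ (subset_closure x1)).2.trans_le ((infDist_le_dist_of_mem (z j).2).trans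
      (s2 j x2).le)).not_ge (s1 (Nat.succ_le_of_lt ij)), fun x hx δ hδ => ?_⟩
  obtain ⟨a, ha⟩ := (denseRange_denseSeq L).exists_dist_lt ⟨x, hx⟩ (half_pos hδ)
  obtain ⟨N, hN⟩ := exists_nat_one_div_lt (half_pos hδ)
  refine ⟨a.pair (N + 1), (s2 _).trans (ball_subset_ball' ?_)⟩
  have := (s1 (a.right_le_pair (N + 1))).trans (k2 N _)
  rw [dist_comm] at ha
  simp only [z, Nat.unpair_pair]
  exact (add_le_add (this.trans hN.le) ha.le).trans_eq (add_halves δ)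

theorem fusion {G : Set ℝ} (hG : G ∈ 𝒟) :
    ∃ H, Good H ∧ H ⊆ G ∧ (∀ n, H ⊆ Q n) ∧ ∀ k, d k ∉ closure H := by
  choose L W c1 c2 c3 c4 c5 c6 using child h1 h2 d
  obtain ⟨V, v1, rfl⟩ := (h1 G hG).2.1.eq_iInter_nat
  let f : List ℕ → {V : ℕ → Set ℝ // (∀ j, IsOpen (V j)) ∧ ⋂ j, V j ∈ 𝒟} := fun s =>
    s.rec ⟨V, v1, hG⟩ fun i s V => W V s.length i
  let O : List ℕ → Set ℝ := fun s => (f s).1 0
  let H : List ℕ → Set ℝ := fun s => ⋂ n, ⋃ t ∈ {t : List ℕ | t.length = n}, O (t ++ s)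
  have o1 : ∀ i s, closure (O (i :: s)) ⊆ O s := fun i s => (c4 _ _ i).1
  have o2 : ∀ t s, O (t ++ s) ⊆ O s := fun t s => by
    induction t with
    | nil => rfl
    | cons i t ih => exact (subset_closure.trans (o1 i _)).trans ih
  have m : ∀ {x s}, x ∈ H s ↔ ∀ n, ∃ t : List ℕ, t.length = n ∧ x ∈ O (t ++ s) := by simp [H]
  have a0 : ∀ s, H s ⊆ O s := fun s x h => let ⟨t, _, q⟩ := m.1 h 0; o2 t s q
  have a1 : ∀ i s, H (i :: s) ⊆ H s := fun i s x h => m.2 fun n => by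
    obtain ⟨t, t1, t2⟩ := m.1 h n
    obtain ⟨a, u, q⟩ := List.exists_cons_of_ne_nil (l := t ++ [i]) (by simp)
    refine ⟨u, by simpa [t1] using (congrArg List.length q).symm, o2 [a] _ ?_⟩
    rwa [List.singleton_append, ← List.cons_append, ← q, List.append_assoc]
  have a2 : ∀ s x, x ∈ H s → ∃ i, x ∈ H (i :: s) := fun s x h => by
    have k : ∀ n, ∃ i, ∃ t : List ℕ, t.length = n ∧ x ∈ O (t ++ i :: s) := fun n => by
      obtain ⟨t, t1, t2⟩ := m.1 h (n + 1)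
      obtain ⟨u, i, rfl⟩ := (t.eq_nil_or_concat.resolve_left (by rintro rfl; cases t1))
      exact ⟨i, u, by simpa using t1, by simpa using t2⟩
    obtain ⟨i, t, -, q⟩ := k 0
    refine ⟨i, m.2 fun n => ?_⟩
    obtain ⟨j, u, u1, u2⟩ := k n
    obtain r | rfl | r := lt_trichotomy i j
    exacts [(disjoint_left.1 (c5 _ _ _ _ r) (o2 _ _ q) (o2 _ _ u2)).elim, ⟨u, u1, u2⟩,
      (disjoint_left.1 (c5 _ _ _ _ r) (o2 _ _ u2) (o2 _ _ q)).elim]
  have a3 : ∀ j s, H s ⊆ (f s).1 j := fun j => by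
    induction j with
    | zero => exact a0
    | succ j ih => exact fun s x h => let ⟨i, q⟩ := a2 s x h; (c4 _ _ i).2.1 j (ih _ q)
  have a4 : ∀ x ∈ H [], ∀ n, ∃ i s, s.length = n ∧ x ∈ H (i :: s) := fun x h n => by
    induction n with
    | zero => exact (a2 _ x h).imp fun i q => ⟨[], rfl, q⟩
    | succ n ih =>
      obtain ⟨i, s, rfl, q⟩ := ih
      exact (a2 _ x q).imp fun j r => ⟨i :: s, rfl, r⟩
  have a5 : ∀ s, H s ⊆ H [] := fun s => by
    induction s with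
    | nil => rfl
    | cons i s ih => exact (a1 i s).trans ih
  have a6 : ∀ s, (H s).Nonempty := fun s => by
    obtain ⟨x, hx⟩ := IsCompact.nonempty_iInter_of_sequence_nonempty_isCompact_isClosed
      (fun n => closure (O (0 :: (List.replicate n 0 ++ s))))
      (fun n => (o1 _ _).trans subset_closure)
      (fun n => ((h1 _ (f (0 :: (List.replicate n 0 ++ s))).2.2).1.mono (iInter_subset _ 0)).closure)
      (let ⟨_, q⟩ := (c4 _ _ 0).2.2.2.2.1; (isBounded_ball.subset q).isCompact_closure)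
      fun _ => isClosed_closure
    exact ⟨x, m.2 fun n => ⟨List.replicate n 0, by simp, o1 _ _ (mem_iInter.1 hx n)⟩⟩
  refine ⟨H [], ⟨a6 _, .iInter fun n => (isOpen_biUnion fun t _ => (f _).2.1 0).isGδ,
    fun U hU ⟨x, x1, x2⟩ => ?_⟩, subset_iInter fun j => a3 j [], fun n x h => ?_, fun k h => ?_⟩
  · obtain ⟨r, r1, r2⟩ := Metric.isOpen_iff.1 hU x x1
    obtain ⟨n, hn⟩ := exists_nat_one_div_lt (half_pos r1)
    obtain ⟨i, s, rfl, q⟩ := a4 x x2 n
    obtain ⟨z, hz⟩ := (c4 (f s) s.length i).2.2.2.2.1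
    refine fun e => c2 (f (i :: s)) (i :: s).length (measure_mono_null (fun y hy =>
      Metric.mem_closure_iff.2 fun δ hδ => ?_) e)
    obtain ⟨j, hj⟩ := c6 _ _ y hy δ hδ
    obtain ⟨w, hw⟩ := a6 (j :: i :: s)
    refine ⟨w, ⟨r2 ?_, a5 _ hw⟩, mem_ball'.1 (hj (a0 _ hw))⟩
    have k1 := mem_ball.1 (hz (a0 _ (a1 _ _ hw)))
    have k2 := mem_ball.1 (hz (a0 _ q))
    exact (dist_triangle_right w x z).trans_lt (by linarith)
  · obtain ⟨i, s, rfl, q⟩ := a4 x h n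
    exact (c4 _ _ i).2.2.1 (mem_iInter.2 fun j => a3 j _ q)
  · have st : ∀ s, d k ∈ closure (H s) → ∃ i, d k ∈ closure (H (i :: s)) := fun s q => by
      have := c3 (f s) s.length k
      rw [← (c1 _ _).closure_eq, closure_eq_iInter_cthickening] at this
      simp only [mem_iInter, not_forall] at this
      obtain ⟨δ, d1, d2⟩ := this
      obtain ⟨N, hN⟩ := exists_nat_one_div_lt d1
      have : H s ⊆ (⋃ i ∈ Finset.range (N + 1), H (i :: s)) ∪ thickening δ (L (f s) s.length) :=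
        fun x hx => by
          obtain ⟨i, hi⟩ := a2 s x hx
          by_cases c : i < N + 1
          · exact .inl (mem_biUnion (Finset.mem_range.2 c) hi)
          obtain ⟨i, rfl⟩ := Nat.exists_eq_add_of_le' (show 1 ≤ i by omega)
          exact .inr (thickening_mono ((Nat.one_div_le_one_div (by omega)).trans hN.le) _
            ((c4 _ _ i).2.2.2.2.2 (a0 _ hi)))
      have := closure_mono this q
      rw [closure_union, Finset.closure_biUnion] at this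
      obtain ⟨i, -, r⟩ := mem_iUnion₂.1 (this.resolve_right fun r =>
        d2 (closure_thickening_subset_cthickening _ _ r))
      exact ⟨i, r⟩
    have : ∀ n, ∃ s : List ℕ, s.length = n ∧ d k ∈ closure (H s) := fun n => by
      induction n with
      | zero => exact ⟨[], rfl, h⟩
      | succ n ih =>
        obtain ⟨s, rfl, q⟩ := ih
        exact let ⟨i, r⟩ := st s q; ⟨i :: s, rfl, r⟩
    obtain ⟨s, s1, s2⟩ := this k
    obtain ⟨i, r⟩ := st s s2
    subst s1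
    exact (c4 (f s) s.length i).2.2.2.1 (closure_mono (a0 _) r)
end

theorem Good.null {G : Set ℝ} (h : Good G) (μ : Measure ℝ) [IsFiniteMeasure μ]
    (hμ : ∀ x, μ {x} = 0) : ∃ H ⊆ G, Good H ∧ μ H = 0 := by
  have : NullSingletonClass μ := ⟨hμ⟩
  obtain ⟨E, e1, e2, e3⟩ := dns G
  choose U u1 u2 u3 using fun n : ℕ => E.exists_isOpen_lt_of_lt (μ := μ) (n : ENNReal)⁻¹
    (by simp [e2.measure_zero])
  have k : ∀ V, IsOpen V → V ∩ G ⊆ closure (V ∩ (G ∩ ⋂ n, U n)) := fun V hV =>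
    (inter_subset_inter_right _ e3).trans (hV.inter_closure.trans (closure_mono
      (inter_subset_inter_right _ (subset_inter e1 (subset_iInter u1)))))
  refine ⟨G ∩ ⋂ n, U n, inter_subset_left, ⟨by simpa using (h.1.mono
    (by simpa using k _ isOpen_univ)).of_closure, h.2.1.inter (.iInter fun n => (u2 n).isGδ),
    fun V hV n e => h.2.2 V hV (n.mono (inter_subset_inter_right _ inter_subset_left))
      (measure_mono_null (closure_minimal (k V hV) isClosed_closure) e)⟩, by_contra fun c => ?_⟩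
  obtain ⟨n, hn⟩ := ENNReal.exists_inv_nat_lt c
  exact (hn.trans_le (measure_mono (inter_subset_right.trans (iInter_subset _ n)))).not_gt (u3 n)

theorem Good.avoid {G : Set ℝ} (h : Good G) (C : ℕ → Set ℝ) (hC : ∀ n, IsClosed (C n)) :
    ∃ x ∈ G, (∀ n, volume (C n) = 0) → x ∉ ⋃ n, C n := by
  by_cases c : ∀ n, volume (C n) = 0
  · obtain ⟨H, k1, k2, k3, -⟩ := fusion (𝒟 := {G | Good G}) (fun _ => id) (Q := fun n => (C n)ᶜ)
      (fun G hG U hU n i => ⟨_, (hG.inter hU n).inter (hC i).isOpen_compl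
        (inter_comm _ _ ▸ inter_compl_nonempty_iff.2 fun q => hG.2.2 U hU n
          (measure_mono_null (closure_minimal q (hC i)) (c i))), (inter_comm _ _).le⟩) (fun _ => 0) h
    obtain ⟨x, hx⟩ := k1.1
    exact ⟨x, k2 hx, fun _ => by simpa using fun n => k3 n hx⟩
  · exact h.1.imp fun x hx => ⟨hx, fun q => (c q).elim⟩

theorem mg {P C : Set ℝ} (h : IsClosed C) (k : P ⊆ closure (P \ C)) :
    IsMeagre ((↑) ⁻¹' C : Set P) :=
  ((h.preimage continuous_subtype_val).isNowhereDense_iff.2 (interior_eq_empty_iff_dense_compl.2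
    (Subtype.dense_iff.2 (by rwa [← preimage_compl, Subtype.image_preimage_coe])))).isMeagre

theorem result (h : (𝔠 : Cardinal.{0}) = ℵ₁) : ∃ A, PM A ∧ UN A ∧ ¬ PN A := by
  let ι := (ℕ → {C : Set ℝ // IsClosed C}) × {μ : Measure ℝ // IsFiniteMeasure μ ∧ ∀ x, μ {x} = 0}
  let W : Type := (#ι).ord.ToType
  obtain ⟨e⟩ : Nonempty (W ≃ ι) := Cardinal.eq.1 (mk_ord_toType _)
  have h1 : ∀ ξ : W, (Iio ξ).Countable := fun ξ => by
    have k1 := MeasurableSpace.cardinal_measurableSet_le_continuum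
      ((MeasurableSpace.countable_countableGeneratingSet (α := ℝ)).le_aleph0.trans
        aleph0_le_continuum)
    rw [MeasurableSpace.generateFrom_countableGeneratingSet] at k1
    have k2 : #{μ : Measure ℝ // IsFiniteMeasure μ ∧ ∀ x, μ {x} = 0} ≤ #(ℚ × ℚ → ℝ) :=
      mk_le_of_injective (f := fun μ p => μ.1.real (Ioo p.1 p.2)) fun μ ν q => by
        have := μ.2.1
        have := ν.2.1
        exact Subtype.ext (Real.measure_ext_Ioo_rat fun a b =>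
          (measureReal_eq_measureReal_iff).1 (congrFun q (a, b)))
    refine (countable_iff_lt_aleph_one _).2 ((mk_Iio_toType_ord_lt ξ).trans_le (h ▸ ?_))
    rw [mk_prod, lift_id, lift_id, ← continuum_mul_self]
    refine mul_le_mul' ?_ (k2.trans (by simp [mk_real]))
    rw [← power_def, mk_nat, ← continuum_power_aleph0]
    exact power_le_power_right ((mk_le_mk_of_subset (s := {C : Set ℝ | IsClosed C})
      fun _ k => k.measurableSet).trans k1)
  choose D d1 d2 d3 using dns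
  choose d hd using fun ξ : W => ((countable_iUnion fun n => d2 ((e ξ).1 n)).insert 0).exists_eq_range
    (insert_nonempty _ _)
  have g0 : Good univ := ⟨univ_nonempty, .univ, fun U hU n q => (hU.measure_pos volume
    (by simpa using n)).ne' (measure_mono_null (by simpa using subset_closure) q)⟩
  obtain ⟨K, hK⟩ := Lib.helper21.Tasks.trans_rec (W := W) (S := Set (Set ℝ)) (fun ξ f K =>
    K.Countable ∧ (∀ H ∈ K, Good H ∧ (e ξ).2.1 H = 0 ∧ (∀ k, d ξ k ∉ closure H) ∧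
      ∀ η < ξ, H ⊆ ⋃₀ f η) ∧ ∀ G, (G = univ ∨ ∃ η < ξ, G ∈ f η) → ∀ U, IsOpen U →
        (U ∩ G).Nonempty → ∃ H ∈ K, H ⊆ U ∩ G)
    (fun ξ f g K q ⟨k1, k2, k3⟩ => ⟨k1, fun H hH => ⟨(k2 H hH).1, (k2 H hH).2.1, (k2 H hH).2.2.1,
      fun η l => q η l ▸ (k2 H hH).2.2.2 η l⟩, fun G hG => k3 G (hG.imp_right fun ⟨η, l, r⟩ =>
        ⟨η, l, q η l ▸ r⟩)⟩) fun ξ f ih => by
      let S := {G | G = univ ∨ ∃ η < ξ, G ∈ f η}
      have s1 : ∀ G ∈ S, Good G := by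
        rintro _ (rfl | ⟨η, l, r⟩)
        exacts [g0, ((ih η l).2.1 _ r).1]
      have s2 : S.Countable := (((h1 ξ).biUnion fun η l => (ih η l).1).insert univ).mono
        fun G r => r.imp_right fun ⟨η, l, r⟩ => mem_biUnion l r
      obtain ⟨Q, hQ⟩ := (((h1 ξ).image fun η => ⋃₀ f η).insert univ).exists_eq_range
        (insert_nonempty _ _)
      have := (e ξ).2.2.1
      have k : ∀ p : {p : Set ℝ × Set ℝ // p ∈ S ×ˢ countableBasis ℝ ∧ (p.2 ∩ p.1).Nonempty},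
          ∃ H ⊆ p.1.2 ∩ p.1.1, Good H ∧ (e ξ).2.1 H = 0 ∧ (∀ k, d ξ k ∉ closure H) ∧
            ∀ η < ξ, H ⊆ ⋃₀ f η := fun ⟨⟨G, U⟩, ⟨p1, p2⟩, p3⟩ => by
        obtain ⟨H, k1, k2, k3, k4⟩ := fusion (𝒟 := {H | ∃ G ∈ S, ∃ U, IsOpen U ∧ H = U ∩ G ∧
          H.Nonempty}) (by rintro _ ⟨G, r, U, hU, rfl, n⟩; exact (s1 G r).inter hU n) (Q := Q)
          (by
            rintro _ ⟨G, r, U, hU, rfl, -⟩ V hV n i
            rw [← inter_assoc] at n ⊢
            have t : G ⊆ Q i → ∃ H ∈ {H | ∃ G ∈ S, ∃ U, IsOpen U ∧ H = U ∩ G ∧ H.Nonempty},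
                H ⊆ V ∩ U ∩ G ∩ Q i := fun q => ⟨_, ⟨G, r, _, hV.inter hU, rfl, n⟩,
                  subset_inter le_rfl (inter_subset_right.trans q)⟩
            obtain q | ⟨η, l, q⟩ := hQ.ge (mem_range_self i)
            · exact t (q ▸ subset_univ _)
            by_cases c : G = univ ∨ ∃ γ < η, G ∈ f γ
            · obtain ⟨H, q1, q2⟩ := (ih η l).2.2 G c _ (hV.inter hU) n
              exact ⟨H, ⟨H, .inr ⟨η, l, q1⟩, univ, isOpen_univ, (univ_inter _).symm,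
                ((ih η l).2.1 _ q1).1.1⟩, subset_inter q2 (q ▸ subset_sUnion_of_mem q1)⟩
            obtain ⟨γ, l', r⟩ := r.resolve_left fun q => c (.inl q)
            obtain q' | rfl := (not_lt.1 fun q => c (.inr ⟨γ, q, r⟩)).lt_or_eq
            exacts [t (q ▸ ((ih γ l').2.1 _ r).2.2.2 η q'), t (q ▸ subset_sUnion_of_mem r)])
          (d ξ) ⟨G, p1, U, isOpen_of_mem_countableBasis p2, rfl, p3⟩
        obtain ⟨H', q1, q2, q3⟩ := k1.null (e ξ).2.1 (e ξ).2.2.2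
        refine ⟨H', q1.trans k2, q2, q3, fun k q => k4 k (closure_mono q1 q), fun η l => ?_⟩
        obtain ⟨i, hi⟩ := hQ.le (.inr ⟨η, l, rfl⟩)
        exact q1.trans ((k3 i).trans hi.le)
      choose H k1 k2 using k
      have : Countable {p : Set ℝ × Set ℝ // p ∈ S ×ˢ countableBasis ℝ ∧ (p.2 ∩ p.1).Nonempty} :=
        ((s2.prod (countable_countableBasis ℝ)).mono (inter_subset_left
          (t := {p : Set ℝ × Set ℝ | (p.2 ∩ p.1).Nonempty}))).to_subtype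
      refine ⟨range H, countable_range H, forall_mem_range.2 k2, fun G r U hU ⟨x, x1, x2⟩ => ?_⟩
      obtain ⟨V, v1, v2, v3⟩ := (isBasis_countableBasis ℝ).exists_subset_of_mem_open x1 hU
      exact ⟨_, ⟨⟨(G, V), ⟨r, v1⟩, x, v2, x2⟩, rfl⟩, (k1 _).trans (inter_subset_inter_left _ v3)⟩
  choose G g1 g2 using fun ξ => (hK ξ).2.2 univ (.inl rfl) univ isOpen_univ (by simp)
  choose x x1 x2 using fun ξ => ((hK ξ).2.1 _ (g1 ξ)).1.avoid (fun n => (e ξ).1 n) fun n => ((e ξ).1 n).2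
  have k : ∀ ξ, range x ⊆ ⋃₀ K ξ ∪ x '' Iio ξ := by
    rintro ξ _ ⟨η, rfl⟩
    obtain l | rfl | l := lt_trichotomy η ξ
    exacts [.inr ⟨η, l, rfl⟩, .inl ⟨_, g1 η, x1 η⟩, .inl (((hK η).2.1 _ (g1 η)).2.2.2 ξ l (x1 η))]
  refine ⟨range x, fun P hP => ?_, fun μ m1 m2 => ?_, fun q => ?_⟩
  · obtain ⟨ξ, hξ⟩ := e.surjective (fun n => ⟨P n, (hP n).closed⟩, ⟨0, inferInstance, fun _ => rfl⟩)
    obtain ⟨C, hC⟩ := ((((hK ξ).1.image closure).union ((h1 ξ).image fun η => {x η})).insert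
      ∅).exists_eq_range (insert_nonempty _ _)
    have c : ∀ i, IsClosed (C i) ∧ ∀ n, P n ⊆ closure (P n \ C i) := by
      intro i
      obtain q | ⟨H, q1, q⟩ | ⟨η, -, q⟩ := hC.ge (mem_range_self i)
      · simp [q, subset_closure]
      · refine q ▸ ⟨isClosed_closure, fun n => (d3 _).trans (closure_mono fun y hy => ⟨d1 _ hy, ?_⟩)⟩
        obtain ⟨j, rfl⟩ := (hd ξ).le (.inr (mem_iUnion.2 ⟨n, show y ∈ _ by rwa [hξ]⟩))
        exact ((hK ξ).2.1 _ q1).2.2.1 j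
      · refine q ▸ ⟨isClosed_singleton, fun n y hy => ?_⟩
        by_cases c : y = x η
        · refine mem_closure_iff_nhds.2 fun U hU => ?_
          obtain ⟨z, z1, z2⟩ := accPt_iff_nhds.1 ((hP n).acc y hy) U hU
          exact ⟨z, z1.1, z1.2, fun r => z2 (r.trans c.symm)⟩
        · exact subset_closure ⟨hy, c⟩
    refine ⟨⋃ i, C i, ⟨C, fun i => (c i).1, rfl⟩, (k ξ).trans ?_, fun n => ?_⟩
    · rw [← sUnion_range, ← hC]
      rintro y (⟨H, q1, q2⟩ | ⟨η, l, rfl⟩)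
      exacts [⟨_, .inr (.inl ⟨H, q1, rfl⟩), subset_closure q2⟩, ⟨_, .inr (.inr ⟨η, l, rfl⟩), rfl⟩]
    · rw [preimage_iUnion]
      exact isMeagre_iUnion fun i => mg (c i).1 ((c i).2 n)
  · obtain ⟨ξ, hξ⟩ := e.surjective (fun n => ⟨∅, isClosed_empty⟩, ⟨μ, m1, m2⟩)
    have : NullSingletonClass μ := ⟨m2⟩
    exact measure_mono_null (k ξ) (measure_union_null ((measure_sUnion_null_iff (hK ξ).1).2
      fun H q => by simpa [hξ] using ((hK ξ).2.1 _ q).2.1) (((h1 ξ).image _).measure_zero μ))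
  · obtain ⟨_, ⟨C, c1, rfl⟩, c2, c3⟩ := q (ProbabilityTheory.gaussianReal 0 1) inferInstance
      fun x => ProbabilityTheory.gaussianReal_absolutelyContinuous 0 one_ne_zero (by simp)
    obtain ⟨ξ, hξ⟩ := e.surjective (fun n => ⟨C n, c1 n⟩, ⟨0, inferInstance, fun _ => rfl⟩)
    have := x2 ξ
    rw [hξ] at this
    exact this (fun n => ProbabilityTheory.gaussianReal_absolutelyContinuous' 0 one_ne_zero
      (measure_mono_null (subset_iUnion C n) c3)) (c2 (mem_range_self ξ))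

end Pool.Agent.Results.MP_2087e7_lc.CH
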